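import Mathlib

set_option autoImplicit false

/-!
# Chords centred in the layer between two convex sets

For an open convex set `K'` and a closed convex set `K` of `ℝ^n` the set of the vectors `v` such
that some chord `[y - v, y + v]` of `K'` has its midpoint `y` outside `K` has volume at most
`2 * 6 ^ n` times the volume of `K' \ K`.
-/

open MeasureTheory Set Filter Topology ENNReal NNReal Metric Module
open scoped Pointwise

set_option linter.unusedSectionVars false
set_option linter.deprecated false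

namespace Pool.Agent.R462.KC

variable {E : Type*} [NormedAddCommGroup E] [NormedSpace ℝ E] [FiniteDimensional ℝ E]
  [MeasurableSpace E] [BorelSpace E]

/-- half vectors of the chords of `U` with midpoint `y` -/
def Mac (U : Set E) (y : E) : Set E := {w | y + w ∈ U ∧ y - w ∈ U}

/-- half vectors of the chords of `U` whose midpoint is not in `K` -/
def Ch (U K : Set E) : Set E := {v | ∃ y, y ∉ K ∧ y + v ∈ U ∧ y - v ∈ U}

lemma isOpen_mac {U : Set E} (hU : IsOpen U) (y : E) : IsOpen (Mac U y) := by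
  have h1 : IsOpen {w : E | y + w ∈ U} := hU.preimage (by fun_prop)
  have h2 : IsOpen {w : E | y - w ∈ U} := hU.preimage (by fun_prop)
  exact h1.inter h2

lemma measurable_mac {U : Set E} (hU : IsOpen U) (μ : Measure E) [SFinite μ] :
    Measurable (fun y => μ (Mac U y)) := by
  have h : MeasurableSet {p : E × E | p.1 + p.2 ∈ U ∧ p.1 - p.2 ∈ U} := by
    apply IsOpen.measurableSet
    exact (hU.preimage (by fun_prop : Continuous fun p : E × E => p.1 + p.2)).inter
      (hU.preimage (by fun_prop : Continuous fun p : E × E => p.1 - p.2))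
  exact measurable_measure_prodMk_left h

/-- the part of the half space -/
lemma half_mac (μ : Measure E) [μ.IsAddHaarMeasure] {U : Set E} (y : E) (ν : E →L[ℝ] ℝ) :
    μ (Mac U y) ≤ 2 * μ (Mac U y ∩ {w | 0 ≤ ν w}) := by
  have h1 : Mac U y ⊆ (Mac U y ∩ {w | 0 ≤ ν w}) ∪ (-(Mac U y ∩ {w | 0 ≤ ν w})) := by
    intro w hw
    rcases le_total 0 (ν w) with h | h
    · exact Or.inl ⟨hw, h⟩
    · right
      refine ⟨⟨?_, ?_⟩, ?_⟩
      · have := hw.2
        rwa [sub_eq_add_neg] at this
      · have := hw.1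
        simpa [sub_eq_add_neg] using this
      · simp only [mem_setOf_eq, map_neg]
        linarith
  calc μ (Mac U y) ≤ _ := measure_mono h1
    _ ≤ _ := measure_union_le _ _
    _ = _ := by rw [Measure.measure_neg, two_mul]

lemma chord_bdd (μ : Measure E) [μ.IsAddHaarMeasure] {U K : Set E} (hU : IsOpen U)
    (hUc : Convex ℝ U) (hUb : Bornology.IsBounded U) (hK : IsClosed K) (hKc : Convex ℝ K) :
    μ (Ch U K) ≤ ENNReal.ofReal (2 * 6 ^ finrank ℝ E) * μ (U \ K) := by
  set n := finrank ℝ E with hn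
  set S : Set E := U \ K with hS
  have hSo : IsOpen S := hU.sdiff hK
  set P : Set (E × E) := {p | p.1 ∈ S ∧ p.1 + (1 / 2 : ℝ) • p.2 ∈ U ∧
    p.1 - (1 / 2 : ℝ) • p.2 ∈ U} with hP
  have hPm : MeasurableSet P := by
    apply IsOpen.measurableSet
    exact (hSo.preimage (by fun_prop : Continuous fun p : E × E => p.1)).inter
      ((hU.preimage (by fun_prop : Continuous fun p : E × E => p.1 + (1 / 2 : ℝ) • p.2)).inter
      (hU.preimage (by fun_prop : Continuous fun p : E × E => p.1 - (1 / 2 : ℝ) • p.2)))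
  set F : E → E → ℝ≥0∞ := fun y v => P.indicator (fun p => (μ (Mac U p.1))⁻¹) (y, v) with hF
  have hFm : Measurable (Function.uncurry F) := by
    apply Measurable.indicator _ hPm
    exact ((measurable_mac hU μ).comp measurable_fst).inv
  set H : E → ℝ≥0∞ := fun v => ∫⁻ y, F y v ∂μ with hH
  -- total integral
  have hA : ∫⁻ v, H v ∂μ ≤ ENNReal.ofReal (2 ^ n) * μ S := by
    rw [hH]
    rw [lintegral_lintegral_swap (f := fun v y => F y v)
      (hFm.comp measurable_swap).aemeasurable]
    have h1 : ∀ y, ∫⁻ v, F y v ∂μ ≤ S.indicator (fun _ => ENNReal.ofReal (2 ^ n)) y := by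
      intro y
      by_cases hy : y ∈ S
      · rw [indicator_of_mem hy]
        have h2 : ∀ v, F y v = ((2 : ℝ) • Mac U y).indicator (fun _ => (μ (Mac U y))⁻¹) v := by
          intro v
          have h3 : (y, v) ∈ P ↔ v ∈ (2 : ℝ) • Mac U y := by
            rw [mem_smul_set_iff_inv_smul_mem₀ (by norm_num)]
            simp only [hP, mem_setOf_eq, Mac]
            constructor
            · rintro ⟨_, h4, h5⟩
              refine ⟨?_, ?_⟩
              · convert h4 using 3; norm_num
              · convert h5 using 3; norm_num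
            · rintro ⟨h4, h5⟩
              refine ⟨hy, ?_, ?_⟩
              · convert h4 using 3; norm_num
              · convert h5 using 3; norm_num
          by_cases h : (y, v) ∈ P
          · simp only [hF]
            rw [indicator_of_mem h, indicator_of_mem (h3.1 h)]
          · simp only [hF]
            rw [indicator_of_notMem h, indicator_of_notMem (fun h' => h (h3.2 h'))]
        simp_rw [h2]
        have h6 : MeasurableSet ((2 : ℝ) • Mac U y) :=
          (isOpen_mac hU y).measurableSet.const_smul₀ 2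
        rw [lintegral_indicator_const h6, Measure.addHaar_smul]
        rw [abs_of_nonneg (by positivity)]
        calc (μ (Mac U y))⁻¹ * (ENNReal.ofReal (2 ^ n) * μ (Mac U y))
            = ENNReal.ofReal (2 ^ n) * ((μ (Mac U y))⁻¹ * μ (Mac U y)) := by ring
          _ ≤ ENNReal.ofReal (2 ^ n) * 1 := by
              gcongr
              exact ENNReal.inv_mul_le_one _
          _ = _ := mul_one _
      · rw [indicator_of_notMem hy]
        have : ∀ v, F y v = 0 := by
          intro v
          simp only [hF]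
          rw [indicator_of_notMem]
          exact fun h => hy h.1
        simp [this]
    calc ∫⁻ y, ∫⁻ v, F y v ∂μ ∂μ ≤ ∫⁻ y, S.indicator (fun _ => ENNReal.ofReal (2 ^ n)) y ∂μ :=
          lintegral_mono h1
      _ = _ := lintegral_indicator_const hSo.measurableSet _
  -- lower bound
  have hB : ∀ v ∈ Ch U K, ENNReal.ofReal ((2 * 3 ^ n)⁻¹) ≤ H v := by
    rintro v ⟨y₀, hy₀, hv1, hv2⟩
    obtain ⟨ν, u, hν1, hν2⟩ := geometric_hahn_banach_closed_point hKc hK hy₀
    set Z : Set E := {y | (2 : ℝ) • (y - y₀) ∈ Mac U y₀ ∩ {w | 0 ≤ ν w}} with hZ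
    have hMm : MeasurableSet (Mac U y₀ ∩ {w | 0 ≤ ν w}) := by
      apply (isOpen_mac hU y₀).measurableSet.inter
      exact (isClosed_le continuous_const ν.continuous).measurableSet
    have hZm : MeasurableSet Z := hMm.preimage (by fun_prop)
    have hy₀U : y₀ ∈ U := by
      have := hUc hv1 hv2 (by norm_num : (0:ℝ) ≤ 1 / 2) (by norm_num : (0:ℝ) ≤ 1 / 2)
        (by norm_num)
      convert this using 1
      module
    have hpos : μ (Mac U y₀) ≠ 0 := by
      apply (isOpen_mac hU y₀).measure_ne_zero μ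
      exact ⟨0, by simpa [Mac] using hy₀U⟩
    have hfin : μ (Mac U y₀) ≠ ⊤ := by
      apply ne_of_lt
      have h1 : Mac U y₀ ⊆ (fun w => y₀ + w) ⁻¹' U := fun w hw => hw.1
      calc μ (Mac U y₀) ≤ μ ((fun w => y₀ + w) ⁻¹' U) := measure_mono h1
        _ = μ U := measure_preimage_add μ y₀ U
        _ < ⊤ := hUb.measure_lt_top
    -- points of Z
    have hZP : ∀ y ∈ Z, (y, v) ∈ P ∧ μ (Mac U y) ≤ ENNReal.ofReal ((3 / 2) ^ n) *
        μ (Mac U y₀) := by
      intro y hy
      set w := (2 : ℝ) • (y - y₀) with hw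
      have hyw : y = y₀ + (1 / 2 : ℝ) • w := by rw [hw]; module
      obtain ⟨⟨hw1, hw2⟩, hw3⟩ := hy
      rw [← hw] at hw1 hw2 hw3
      refine ⟨⟨⟨?_, ?_⟩, ?_, ?_⟩, ?_⟩
      · have := hUc hy₀U hw1 (by norm_num : (0:ℝ) ≤ 1 / 2) (by norm_num : (0:ℝ) ≤ 1 / 2)
          (by norm_num)
        convert this using 1
        rw [hyw]; module
      · intro hyK
        have h1 := hν1 y hyK
        have h2 : ν y = ν y₀ + (1 / 2 : ℝ) * ν w := by
          conv_lhs => rw [hyw]
          simp
        have h3 : 0 ≤ ν w := hw3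
        linarith
      · have := hUc hv1 hw1 (by norm_num : (0:ℝ) ≤ 1 / 2) (by norm_num : (0:ℝ) ≤ 1 / 2)
          (by norm_num)
        convert this using 1
        simp only
        rw [hyw]; module
      · have := hUc hv2 hw1 (by norm_num : (0:ℝ) ≤ 1 / 2) (by norm_num : (0:ℝ) ≤ 1 / 2)
          (by norm_num)
        convert this using 1
        simp only
        rw [hyw]; module
      · have h1 : Mac U y ⊆ (3 / 2 : ℝ) • Mac U y₀ := by
          intro z hz
          rw [mem_smul_set_iff_inv_smul_mem₀ (by norm_num)]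
          have e1 : y₀ + (3 / 2 : ℝ)⁻¹ • z = (2 / 3 : ℝ) • (y + z) + (1 / 3 : ℝ) • (y₀ - w) := by
            rw [hyw]; module
          have e2 : y₀ - (3 / 2 : ℝ)⁻¹ • z = (2 / 3 : ℝ) • (y - z) + (1 / 3 : ℝ) • (y₀ - w) := by
            rw [hyw]; module
          refine ⟨?_, ?_⟩
          · rw [e1]
            exact hUc hz.1 hw2 (by norm_num) (by norm_num) (by norm_num)
          · rw [e2]
            exact hUc hz.2 hw2 (by norm_num) (by norm_num) (by norm_num)
        calc μ (Mac U y) ≤ μ ((3 / 2 : ℝ) • Mac U y₀) := measure_mono h1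
          _ = _ := by
              rw [Measure.addHaar_smul, abs_of_nonneg (by positivity)]
    have hZvol : μ (Mac U y₀) ≤ ENNReal.ofReal (2 * 2 ^ n) * μ Z := by
      have h1 := half_mac μ (U := U) y₀ ν
      have h2 : Mac U y₀ ∩ {w | 0 ≤ ν w} ⊆ (2 : ℝ) • ((fun x => x + y₀) ⁻¹' Z) := by
        intro w hw
        rw [mem_smul_set_iff_inv_smul_mem₀ (by norm_num)]
        simp only [mem_preimage, hZ, mem_setOf_eq]
        have : (2 : ℝ) • ((2 : ℝ)⁻¹ • w + y₀ - y₀) = w := by module
        rw [this]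
        exact hw
      have h3 : μ (Mac U y₀ ∩ {w | 0 ≤ ν w}) ≤ ENNReal.ofReal (2 ^ n) * μ Z := by
        calc _ ≤ μ ((2 : ℝ) • ((fun x => x + y₀) ⁻¹' Z)) := measure_mono h2
          _ = ENNReal.ofReal (2 ^ n) * μ ((fun x => x + y₀) ⁻¹' Z) := by
              rw [Measure.addHaar_smul, abs_of_nonneg (by positivity)]
          _ = _ := by rw [measure_preimage_add_right]
      calc μ (Mac U y₀) ≤ 2 * (ENNReal.ofReal (2 ^ n) * μ Z) := h1.trans (by gcongr)
        _ = _ := by
            rw [ENNReal.ofReal_mul (by norm_num), mul_assoc]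
            simp
    have hint : μ Z * (ENNReal.ofReal ((3 / 2) ^ n) * μ (Mac U y₀))⁻¹ ≤ H v := by
      rw [hH, mul_comm, ← lintegral_indicator_const hZm]
      apply lintegral_mono
      intro y
      by_cases hy : y ∈ Z
      · rw [indicator_of_mem hy]
        obtain ⟨h1, h2⟩ := hZP y hy
        simp only [hF]
        rw [indicator_of_mem h1]
        exact ENNReal.inv_le_inv.2 h2
      · rw [indicator_of_notMem hy]
        exact zero_le
    refine le_trans ?_ hint
    have hmul : ENNReal.ofReal ((3 / 2) ^ n) * μ (Mac U y₀) ≠ ⊤ :=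
      ENNReal.mul_ne_top ENNReal.ofReal_ne_top hfin
    have hmul0 : ENNReal.ofReal ((3 / 2) ^ n) * μ (Mac U y₀) ≠ 0 := by
      apply mul_ne_zero _ hpos
      rw [ne_eq, ENNReal.ofReal_eq_zero, not_le]
      positivity
    rw [← div_eq_mul_inv, ENNReal.le_div_iff_mul_le (Or.inl hmul0) (Or.inl hmul)]
    calc ENNReal.ofReal ((2 * 3 ^ n)⁻¹) * (ENNReal.ofReal ((3 / 2) ^ n) * μ (Mac U y₀))
        ≤ ENNReal.ofReal ((2 * 3 ^ n)⁻¹) * (ENNReal.ofReal ((3 / 2) ^ n) *
          (ENNReal.ofReal (2 * 2 ^ n) * μ Z)) := by gcongr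
      _ = ENNReal.ofReal ((2 * 3 ^ n)⁻¹ * (3 / 2) ^ n * (2 * 2 ^ n)) * μ Z := by
          rw [← mul_assoc, ← mul_assoc, ← ENNReal.ofReal_mul (by positivity),
            ← ENNReal.ofReal_mul (by positivity)]
      _ = μ Z := by
          have : ((2 * 3 ^ n : ℝ))⁻¹ * (3 / 2) ^ n * (2 * 2 ^ n) = 1 := by
            rw [div_pow]
            field_simp
          rw [this, ENNReal.ofReal_one, one_mul]
  -- Markov
  have hHm : Measurable H := by
    have : Measurable (Function.uncurry (fun v y => F y v)) := hFm.comp measurable_swap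
    exact this.lintegral_prod_right'
  have hc0 : ENNReal.ofReal ((2 * 3 ^ n)⁻¹) ≠ 0 := by
    rw [ne_eq, ENNReal.ofReal_eq_zero, not_le]
    positivity
  calc μ (Ch U K) ≤ μ {v | ENNReal.ofReal ((2 * 3 ^ n)⁻¹) ≤ H v} := measure_mono hB
    _ ≤ (∫⁻ v, H v ∂μ) / ENNReal.ofReal ((2 * 3 ^ n)⁻¹) :=
        meas_ge_le_lintegral_div hHm.aemeasurable hc0 ENNReal.ofReal_ne_top
    _ ≤ (ENNReal.ofReal (2 ^ n) * μ S) / ENNReal.ofReal ((2 * 3 ^ n)⁻¹) := by gcongr
    _ = ENNReal.ofReal (2 * 6 ^ n) * μ S := by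
        rw [div_eq_mul_inv, ← ENNReal.ofReal_inv_of_pos (by positivity), inv_inv]
        rw [mul_right_comm, ← ENNReal.ofReal_mul (by positivity)]
        congr 2
        rw [show (6 : ℝ) = 2 * 3 by norm_num, mul_pow]
        ring

/-- the half chords of length less than `r` for an unbounded set `U` -/
theorem chord (μ : Measure E) [μ.IsAddHaarMeasure] {U K : Set E} (hU : IsOpen U)
    (hUc : Convex ℝ U) (hK : IsClosed K) (hKc : Convex ℝ K) :
    μ (Ch U K ∩ ball 0 1) ≤ ENNReal.ofReal (2 * 6 ^ finrank ℝ E) * μ (U \ K) := by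
  set V : ℕ → Set E := fun R => {v | v ∈ ball (0 : E) 1 ∧ ∃ y, y ∉ K ∧ ‖y‖ < R ∧ y + v ∈ U ∧
    y - v ∈ U} with hV
  have h1 : Ch U K ∩ ball 0 1 ⊆ ⋃ R, V R := by
    rintro v ⟨⟨y, hy, h2, h3⟩, hv⟩
    obtain ⟨R, hR⟩ := exists_nat_gt ‖y‖
    exact mem_iUnion.2 ⟨R, hv, y, hy, hR, h2, h3⟩
  have hmono : Monotone V := by
    intro a b hab v hv
    obtain ⟨hv1, y, hy, h2, h3⟩ := hv
    exact ⟨hv1, y, hy, h2.trans_le (by exact_mod_cast hab), h3⟩
  have h4 : ∀ R, μ (V R) ≤ ENNReal.ofReal (2 * 6 ^ finrank ℝ E) * μ (U \ K) := by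
    intro R
    have h5 : V R ⊆ Ch (U ∩ ball 0 (R + 1)) K := by
      rintro v ⟨hv, y, hy, h2, h3, h4⟩
      have hv' : ‖v‖ < 1 := by simpa using hv
      refine ⟨y, hy, ⟨h3, ?_⟩, ⟨h4, ?_⟩⟩
      · rw [mem_ball_zero_iff]
        calc _ ≤ ‖y‖ + ‖v‖ := norm_add_le _ _
          _ < _ := by linarith
      · rw [mem_ball_zero_iff]
        calc _ ≤ ‖y‖ + ‖v‖ := norm_sub_le _ _
          _ < _ := by linarith
    calc μ (V R) ≤ μ (Ch (U ∩ ball 0 (R + 1)) K) := measure_mono h5
      _ ≤ ENNReal.ofReal (2 * 6 ^ finrank ℝ E) * μ ((U ∩ ball 0 (R + 1)) \ K) :=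
          chord_bdd μ (hU.inter isOpen_ball) (hUc.inter (convex_ball _ _))
            (isBounded_ball.subset inter_subset_right) hK hKc
      _ ≤ _ := by
          gcongr
          exact inter_subset_left
  calc μ (Ch U K ∩ ball 0 1) ≤ μ (⋃ R, V R) := measure_mono h1
    _ = ⨆ R, μ (V R) := hmono.measure_iUnion
    _ ≤ _ := iSup_le h4

end Pool.Agent.R462.KC
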