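import Pool.Agent.R462.KC.Tools

set_option autoImplicit false

/-!
The Kakeya maximal function on sets and functions layered by convex sets.
-/

open MeasureTheory Set Filter Topology ENNReal NNReal Metric

namespace Pool.Agent.R462.KC

/-- `A` is covered, up to a null set, by `D` differences of two convex sets, of total volume at
most `W`. -/
def LayerCover {n : ℕ} (D : ℕ) (W : ℝ≥0∞) (A : Set (EuclideanSpace ℝ (Fin n))) : Prop :=
  ∃ U K : Fin D → Set (EuclideanSpace ℝ (Fin n)), (∀ i, Convex ℝ (U i)) ∧ (∀ i, Convex ℝ (K i)) ∧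
    volume (A \ ⋃ i, U i \ K i) = 0 ∧ ∑ i, volume (U i \ K i) ≤ W

theorem null_open_layer {n : ℕ} {U K : Set (EuclideanSpace ℝ (Fin n))} (hU : Convex ℝ U)
    (hK : Convex ℝ K) : volume ((U \ K) \ (interior U \ closure K)) = 0 := by
  have h : (U \ K) \ (interior U \ closure K) ⊆ frontier U ∪ frontier K := by
    rintro x ⟨⟨h1, h2⟩, h3⟩
    by_cases h4 : x ∈ interior U
    · right
      have h5 : x ∈ closure K := by
        by_contra h5
        exact h3 ⟨h4, h5⟩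
      exact ⟨h5, fun h6 => h2 (interior_subset h6)⟩
    · left
      exact ⟨subset_closure h1, h4⟩
  exact measure_mono_null h (measure_union_null (hU.addHaar_frontier volume)
    (hK.addHaar_frontier volume))

theorem seg_iUnion_le {n D : ℕ} (S : Fin D → Set (EuclideanSpace ℝ (Fin n)))
    (e : EuclideanSpace ℝ (Fin n)) : seg (⋃ i, S i) e ≤ ∑ i, seg (S i) e := by
  apply iSup_le
  intro a
  calc volume {t : ℝ | t ∈ Icc (0:ℝ) 1 ∧ a + t • e ∈ ⋃ i, S i}
      = volume (⋃ i, {t : ℝ | t ∈ Icc (0:ℝ) 1 ∧ a + t • e ∈ S i}) := by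
        congr 1
        ext t
        simp only [mem_iUnion, mem_ofPred_eq]
        constructor
        · rintro ⟨h1, i, h2⟩
          exact ⟨i, h1, h2⟩
        · rintro ⟨i, h1, h2⟩
          exact ⟨h1, i, h2⟩
    _ ≤ ∑ i, volume {t : ℝ | t ∈ Icc (0:ℝ) 1 ∧ a + t • e ∈ S i} := measure_iUnion_fintype_le _ _
    _ ≤ _ := by
        apply Finset.sum_le_sum
        intro i _
        exact le_iSup (fun a => volume {t : ℝ | t ∈ Icc (0:ℝ) 1 ∧ a + t • e ∈ S i}) a

/-- The constant in the estimate for one layer. -/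
noncomputable def c0 (m : ℕ) : ℝ := ((m + 1 : ℕ) : ℝ) * 2 ^ (m + 1) * (2 * 6 ^ (m + 1))

theorem c0_pos (m : ℕ) : 0 < c0 m := by unfold c0; positivity

theorem volume_tube_pos {m : ℕ} {δ : ℝ} (hδ : 0 < δ) {e a : EuclideanSpace ℝ (Fin (m + 1))}
    (he : ‖e‖ = 1) : volume (tube δ e a) ≠ 0 := by
  obtain ⟨c, hc, h⟩ := Pool.Agent.H742R2.Kk.volume_tube m
  have h1 := h δ e a hδ he
  have h2 : 0 < ENNReal.ofReal (c * δ ^ m) := ENNReal.ofReal_pos.2 (by positivity)
  exact (lt_of_lt_of_le h2 h1).ne'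

theorem fin_pow_sum_le {D m : ℕ} (y : Fin D → ℝ≥0∞) :
    (∑ i, y i) ^ (m + 1) ≤ (D:ℝ≥0∞) ^ m * ∑ i, y i ^ (m + 1) := by
  have h := ENNReal.rpow_sum_le_const_mul_sum_rpow (s := Finset.univ) (f := y)
    (p := ((m + 1 : ℕ) : ℝ)) (by push_cast; linarith [(Nat.cast_nonneg m : (0:ℝ) ≤ m)])
  have h1 : (((m + 1 : ℕ) : ℝ) - 1) = ((m:ℕ):ℝ) := by push_cast; ring
  rw [h1, Finset.card_univ, Fintype.card_fin] at h
  simp only [ENNReal.rpow_natCast] at h
  exact h

/-- The estimate for sets, without loss, with a measurable majorant. -/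
theorem set_major {m D : ℕ} {W : ℝ≥0∞} {A : Set (EuclideanSpace ℝ (Fin (m + 1)))}
    (hA : LayerCover D W A) :
    ∃ P : sphere (0 : EuclideanSpace ℝ (Fin (m + 1))) 1 → ℝ≥0∞, Measurable P ∧
      (∀ (e : sphere (0 : EuclideanSpace ℝ (Fin (m + 1))) 1) (a : EuclideanSpace ℝ (Fin (m + 1)))
        (δ : ℝ), 0 < δ → ((volume (tube δ (e : EuclideanSpace ℝ (Fin (m + 1))) a))⁻¹ *
          volume (tube δ (e : EuclideanSpace ℝ (Fin (m + 1))) a ∩ A)) ^ (m + 1) ≤ P e) ∧
      ∫⁻ e, P e ∂(volume : Measure (EuclideanSpace ℝ (Fin (m + 1)))).toSphere ≤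
        ENNReal.ofReal (2 ^ (m + 1) * (D:ℝ) ^ m * c0 m) * W := by
  obtain ⟨U, K, hU, hK, hnull, hW⟩ := hA
  set O : Fin D → Set (EuclideanSpace ℝ (Fin (m + 1))) := fun i => interior (U i) \ closure (K i)
    with hO
  have hOo : ∀ i, IsOpen (O i) := fun i => isOpen_interior.sdiff isClosed_closure
  have hOsub : ∀ i, O i ⊆ U i \ K i := fun i x hx =>
    ⟨interior_subset hx.1, fun h => hx.2 (subset_closure h)⟩
  have hlay : ∀ i, ∃ P : sphere (0 : EuclideanSpace ℝ (Fin (m + 1))) 1 → ℝ≥0∞, Measurable P ∧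
      (∀ e : sphere (0 : EuclideanSpace ℝ (Fin (m + 1))) 1,
        seg (O i) (e : EuclideanSpace ℝ (Fin (m + 1))) ^ (m + 1) ≤ P e) ∧
      ∫⁻ e, P e ∂(volume : Measure (EuclideanSpace ℝ (Fin (m + 1)))).toSphere ≤
        ENNReal.ofReal (c0 m) * volume (O i) := by
    intro i
    obtain ⟨P, h1, h2, h3⟩ := seg_layer (volume : Measure (EuclideanSpace ℝ (Fin (m + 1))))
      (U := interior (U i)) (K := closure (K i)) isOpen_interior (hU i).interior
      isClosed_closure (hK i).closure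
    have hfr : Module.finrank ℝ (EuclideanSpace ℝ (Fin (m + 1))) = m + 1 := by simp
    rw [hfr] at h2 h3
    exact ⟨P, h1, h2, h3⟩
  choose P hPm hP hPint using hlay
  refine ⟨fun e => 2 ^ (m + 1) * ((D:ℝ≥0∞) ^ m * ∑ i, P i e), ?_, ?_, ?_⟩
  · exact (Finset.measurable_sum _ (fun i _ => hPm i)).const_mul _ |>.const_mul _
  · intro e a δ hδ
    have he : ‖(e : EuclideanSpace ℝ (Fin (m + 1)))‖ = 1 := by simp
    set T := tube δ (e : EuclideanSpace ℝ (Fin (m + 1))) a with hT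
    have hT0 : volume T ≠ 0 := volume_tube_pos hδ he
    have hTt : volume T ≠ ∞ := (volume_tube_lt_top he).ne
    have h1 : volume (T ∩ A) ≤ volume (T ∩ ⋃ i, O i) := by
      have h2 : T ∩ A ⊆ (T ∩ ⋃ i, O i) ∪ ((A \ ⋃ i, U i \ K i) ∪ ⋃ i, ((U i \ K i) \ O i)) := by
        rintro x ⟨hx1, hx2⟩
        by_cases hx3 : x ∈ ⋃ i, U i \ K i
        · obtain ⟨i, hi⟩ := mem_iUnion.1 hx3
          by_cases hx4 : x ∈ O i
          · exact Or.inl ⟨hx1, mem_iUnion.2 ⟨i, hx4⟩⟩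
          · exact Or.inr (Or.inr (mem_iUnion.2 ⟨i, hi, hx4⟩))
        · exact Or.inr (Or.inl ⟨hx2, hx3⟩)
      have h3 : volume ((A \ ⋃ i, U i \ K i) ∪ ⋃ i, ((U i \ K i) \ O i)) = 0 :=
        measure_union_null hnull (measure_iUnion_null fun i => null_open_layer (hU i) (hK i))
      calc volume (T ∩ A) ≤ _ := measure_mono h2
        _ ≤ volume (T ∩ ⋃ i, O i) + volume ((A \ ⋃ i, U i \ K i) ∪ ⋃ i, ((U i \ K i) \ O i)) :=
            measure_union_le _ _
        _ = _ := by rw [h3, add_zero]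
    have h4 : (volume T)⁻¹ * volume (T ∩ A) ≤
        2 * ∑ i, seg (O i) (e : EuclideanSpace ℝ (Fin (m + 1))) := by
      calc (volume T)⁻¹ * volume (T ∩ A)
          ≤ (volume T)⁻¹ * (2 * volume T * seg (⋃ i, O i) (e : EuclideanSpace ℝ (Fin (m + 1)))) := by
            gcongr
            exact h1.trans (tube_inter_le he (isOpen_iUnion hOo))
        _ = ((volume T)⁻¹ * volume T) * (2 * seg (⋃ i, O i) (e : EuclideanSpace ℝ (Fin (m + 1)))) := by
            ring
        _ = 2 * seg (⋃ i, O i) (e : EuclideanSpace ℝ (Fin (m + 1))) := by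
            rw [ENNReal.inv_mul_cancel hT0 hTt, one_mul]
        _ ≤ _ := by
            gcongr
            exact seg_iUnion_le O _
    calc ((volume T)⁻¹ * volume (T ∩ A)) ^ (m + 1)
        ≤ (2 * ∑ i, seg (O i) (e : EuclideanSpace ℝ (Fin (m + 1)))) ^ (m + 1) :=
          pow_le_pow_left' h4 _
      _ = 2 ^ (m + 1) * (∑ i, seg (O i) (e : EuclideanSpace ℝ (Fin (m + 1)))) ^ (m + 1) :=
          mul_pow _ _ _
      _ ≤ 2 ^ (m + 1) * ((D:ℝ≥0∞) ^ m *
            ∑ i, seg (O i) (e : EuclideanSpace ℝ (Fin (m + 1))) ^ (m + 1)) := by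
          gcongr
          exact fin_pow_sum_le _
      _ ≤ _ :=
          mul_le_mul' le_rfl (mul_le_mul' le_rfl (Finset.sum_le_sum fun i _ => hP i e))
  · have hm : Measurable (fun e => ∑ i, P i e) := Finset.measurable_sum _ (fun i _ => hPm i)
    rw [lintegral_const_mul _ (hm.const_mul _), lintegral_const_mul _ hm,
      lintegral_finsetSum _ (fun i _ => hPm i)]
    calc 2 ^ (m + 1) * ((D:ℝ≥0∞) ^ m * ∑ i, ∫⁻ e, P i e
          ∂(volume : Measure (EuclideanSpace ℝ (Fin (m + 1)))).toSphere)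
        ≤ 2 ^ (m + 1) * ((D:ℝ≥0∞) ^ m * ∑ i, ENNReal.ofReal (c0 m) * volume (U i \ K i)) := by
          refine mul_le_mul' le_rfl (mul_le_mul' le_rfl (Finset.sum_le_sum fun i _ => ?_))
          exact (hPint i).trans (mul_le_mul' le_rfl (measure_mono (hOsub i)))
      _ ≤ 2 ^ (m + 1) * ((D:ℝ≥0∞) ^ m * (ENNReal.ofReal (c0 m) * W)) := by
          rw [← Finset.mul_sum]
          gcongr
      _ = _ := by
          rw [ENNReal.ofReal_mul (by positivity), ENNReal.ofReal_mul (by positivity),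
            ENNReal.ofReal_pow (by norm_num), ENNReal.ofReal_pow (by positivity),
            ENNReal.ofReal_natCast]
          simp only [ENNReal.ofReal_ofNat]
          ring

/-- Pointwise bound of the averages by finitely many layers. -/
theorem pointwise {m : ℕ} (hm : 1 ≤ m) {c : ℝ} (hc : 0 < c)
    (hvol : ∀ (δ : ℝ) (e a : (EuclideanSpace ℝ (Fin (m + 1)))), 0 < δ → ‖e‖ = 1 →
      ENNReal.ofReal (c * δ ^ m) ≤ volume (tube δ e a))
    {δ : ℝ} (hδ : 0 < δ) {J : ℕ} (hJ : (1/2:ℝ) ^ J ≤ δ) {f : (EuclideanSpace ℝ (Fin (m + 1))) → ℝ}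
    (hf : AEMeasurable f volume) {F : ℝ} (hF : 0 < F)
    (hW : ∫⁻ y, ‖f y‖ₑ ^ (m + 1) ≤ ENNReal.ofReal (F ^ (m + 1)))
    {e : (EuclideanSpace ℝ (Fin (m + 1)))} (he : ‖e‖ = 1) (a : (EuclideanSpace ℝ (Fin (m + 1)))) :
    (volume (tube δ e a))⁻¹ * ∫⁻ y in tube δ e a, ‖f y‖ₑ ≤ ENNReal.ofReal (F * (1 + 2 / c)) +
      ∑ j ∈ Finset.range J, ENNReal.ofReal (2 ^ j * F) *
        ((volume (tube δ e a))⁻¹ * volume (tube δ e a ∩ {y | 2 ^ j * F < |f y|})) := by
  set T := tube δ e a with hT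
  have hTv := hvol δ e a hδ he
  have hT0 : volume T ≠ 0 := by
    have : 0 < ENNReal.ofReal (c * δ ^ m) := ENNReal.ofReal_pos.2 (by positivity)
    exact (lt_of_lt_of_le this hTv).ne'
  have hTt : volume T ≠ ∞ := (volume_tube_lt_top he).ne
  have h1 := lintegral_layers (volume.restrict T) (g := fun y => |f y|)
    (hf.restrict.abs) hF
  have h2 : ∫⁻ y in T, ‖f y‖ₑ = ∫⁻ y in T, ENNReal.ofReal |f y| := by
    congr 1; ext y; rw [← ofReal_norm, Real.norm_eq_abs]
  have hTm : MeasurableSet T := (isClosed_tube δ e a).measurableSet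
  set A : ℕ → Set (EuclideanSpace ℝ (Fin (m + 1))) := fun j => {y | 2 ^ j * F < |f y|} with hA
  have h3 : ∀ j : ℕ, (volume.restrict T) {y | 2 ^ j * F < |f y|} = volume (T ∩ A j) := by
    intro j
    rw [Measure.restrict_apply' hTm, inter_comm]
  rw [h2]
  simp only [h3, Measure.restrict_apply_univ] at h1
  -- high layers
  have hmes : ∀ j : ℕ, volume (A j) ≤ ENNReal.ofReal (((1/2:ℝ) ^ j) ^ (m + 1)) := by
    intro j
    have h4 := markov hf hW (s := 2 ^ j * F) (by positivity)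
    have h5 : ENNReal.ofReal (F ^ (m + 1)) = ENNReal.ofReal ((2 ^ j * F) ^ (m + 1)) *
        ENNReal.ofReal (((1/2:ℝ) ^ j) ^ (m + 1)) := by
      rw [← ENNReal.ofReal_mul (by positivity), ← mul_pow]
      congr 2
      rw [one_div, inv_pow]
      field_simp
    rw [h5] at h4
    exact (ENNReal.mul_le_mul_iff_right (by
      rw [Ne, ENNReal.ofReal_eq_zero, not_le]; positivity) ENNReal.ofReal_ne_top).1 h4
  have hhigh : ∀ j : ℕ, ENNReal.ofReal (2 ^ (j + J) * F) *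
      ((volume T)⁻¹ * volume (T ∩ A (j + J))) ≤ ENNReal.ofReal (F / c) * ENNReal.ofReal ((1/2) ^ j) := by
    intro j
    calc ENNReal.ofReal (2 ^ (j + J) * F) * ((volume T)⁻¹ * volume (T ∩ A (j + J)))
        ≤ ENNReal.ofReal (2 ^ (j + J) * F) * ((ENNReal.ofReal (c * δ ^ m))⁻¹ *
          ENNReal.ofReal (((1/2:ℝ) ^ (j + J)) ^ (m + 1))) := by
          gcongr
          exact (measure_mono inter_subset_right).trans (hmes _)
      _ = ENNReal.ofReal (2 ^ (j + J) * F * ((c * δ ^ m)⁻¹ * ((1/2:ℝ) ^ (j + J)) ^ (m + 1))) := by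
          rw [← ENNReal.ofReal_inv_of_pos (by positivity), ← ENNReal.ofReal_mul (by positivity),
            ← ENNReal.ofReal_mul (by positivity)]
      _ ≤ ENNReal.ofReal (F / c * (1/2) ^ j) := by
          apply ENNReal.ofReal_le_ofReal
          have h6 : (2:ℝ) ^ (j + J) * ((1/2:ℝ) ^ (j + J)) ^ (m + 1) = ((1/2:ℝ) ^ (j + J)) ^ m := by
            rw [pow_succ, ← mul_assoc, mul_comm ((2:ℝ) ^ (j + J)), mul_assoc, ← mul_pow]
            norm_num
          have h7 : ((1/2:ℝ) ^ (j + J)) ^ m ≤ (1/2) ^ j * δ ^ m := by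
            rw [pow_add, mul_pow]
            have h8 : ((1/2:ℝ) ^ j) ^ m ≤ (1/2) ^ j := by
              calc ((1/2:ℝ) ^ j) ^ m ≤ ((1/2:ℝ) ^ j) ^ 1 :=
                    pow_le_pow_of_le_one (by positivity) (pow_le_one₀ (by norm_num) (by norm_num)) hm
                _ = _ := pow_one _
            gcongr
          calc 2 ^ (j + J) * F * ((c * δ ^ m)⁻¹ * ((1/2:ℝ) ^ (j + J)) ^ (m + 1))
              = F * (c * δ ^ m)⁻¹ * (2 ^ (j + J) * ((1/2:ℝ) ^ (j + J)) ^ (m + 1)) := by ring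
            _ ≤ F * (c * δ ^ m)⁻¹ * ((1/2) ^ j * δ ^ m) := by
                rw [h6]
                gcongr
            _ = F / c * (1/2) ^ j := by
                field_simp
      _ = _ := by rw [ENNReal.ofReal_mul (by positivity)]
  calc (volume T)⁻¹ * ∫⁻ y in T, ENNReal.ofReal |f y|
      ≤ (volume T)⁻¹ * (ENNReal.ofReal F * volume T +
        ∑' j : ℕ, ENNReal.ofReal (2 ^ j * F) * volume (T ∩ A j)) := by gcongr
    _ = ENNReal.ofReal F + ∑' j : ℕ, ENNReal.ofReal (2 ^ j * F) *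
        ((volume T)⁻¹ * volume (T ∩ A j)) := by
        rw [mul_add, ← ENNReal.tsum_mul_left]
        congr 1
        · rw [mul_comm, mul_assoc, ENNReal.mul_inv_cancel hT0 hTt, mul_one]
        · congr 1; ext j; ring
    _ = ENNReal.ofReal F + (∑ j ∈ Finset.range J, ENNReal.ofReal (2 ^ j * F) *
        ((volume T)⁻¹ * volume (T ∩ A j)) + ∑' j : ℕ, ENNReal.ofReal (2 ^ (j + J) * F) *
        ((volume T)⁻¹ * volume (T ∩ A (j + J)))) := by
        congr 1
        exact (ENNReal.summable.sum_add_tsum_nat_add' (f := fun j : ℕ =>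
          ENNReal.ofReal (2 ^ j * F) * ((volume T)⁻¹ * volume (T ∩ A j)))).symm
    _ ≤ ENNReal.ofReal F + (∑ j ∈ Finset.range J, ENNReal.ofReal (2 ^ j * F) *
        ((volume T)⁻¹ * volume (T ∩ A j)) +
        ∑' j : ℕ, ENNReal.ofReal (F / c) * ENNReal.ofReal ((1/2) ^ j)) := by
        refine add_le_add le_rfl (add_le_add le_rfl
          (ENNReal.tsum_le_tsum fun j => hhigh j))
    _ = _ := by
        have h9 : ∑' j : ℕ, ENNReal.ofReal (F / c) * ENNReal.ofReal ((1/2) ^ j) =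
            ENNReal.ofReal (F * (2 / c)) := by
          rw [ENNReal.tsum_mul_left]
          have h10 : ∑' j : ℕ, ENNReal.ofReal ((1/2:ℝ) ^ j) = ENNReal.ofReal 2 := by
            rw [← ENNReal.ofReal_tsum_of_nonneg (fun j => by positivity)
              summable_geometric_two, tsum_geometric_two]
          rw [h10, ← ENNReal.ofReal_mul (by positivity)]
          congr 1; ring
        rw [h9, mul_add, mul_one, ENNReal.ofReal_add hF.le (by positivity)]
        ring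

/-- The superlevel sets of `|f|` are layered. -/
def Layered {n : ℕ} (D : ℕ) (M : ℝ) (f : EuclideanSpace ℝ (Fin n) → ℝ) : Prop :=
  ∀ s : ℝ, 0 < s → LayerCover D (ENNReal.ofReal M * volume {y | s < |f y|}) {y | s < |f y|}

/-- The main step: bound with any upper bound `F ^ n` of the integral. -/
theorem crit_aux {m : ℕ} (hm : 1 ≤ m) {c : ℝ} (hc : 0 < c)
    (hvol : ∀ (δ : ℝ) (e a : EuclideanSpace ℝ (Fin (m + 1))), 0 < δ → ‖e‖ = 1 →
      ENNReal.ofReal (c * δ ^ m) ≤ volume (tube δ e a))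
    {D : ℕ} {M : ℝ} (hM : 1 ≤ M) {δ : ℝ} (hδ : 0 < δ) {J : ℕ} (hJ : (1/2:ℝ) ^ J ≤ δ)
    {f : EuclideanSpace ℝ (Fin (m + 1)) → ℝ} (hf : AEMeasurable f volume) (hfD : Layered D M f)
    {F : ℝ} (hF : 0 < F) (hW : ∫⁻ y, ‖f y‖ₑ ^ (m + 1) ≤ ENNReal.ofReal (F ^ (m + 1))) :
    ∫⁻ e : sphere (0 : EuclideanSpace ℝ (Fin (m + 1))) 1,
        kakeyaMax δ f (e : EuclideanSpace ℝ (Fin (m + 1))) ^ (m + 1)
        ∂(volume : Measure (EuclideanSpace ℝ (Fin (m + 1)))).toSphere ≤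
      ENNReal.ofReal (((J:ℝ) + 1) ^ m *
        (((volume : Measure (EuclideanSpace ℝ (Fin (m + 1)))).toSphere univ).toReal *
          (1 + 2 / c) ^ (m + 1) + 2 * (2 ^ (m + 1) * (D:ℝ) ^ m * c0 m) * M) * F ^ (m + 1)) := by
  set σ := (volume : Measure (EuclideanSpace ℝ (Fin (m + 1)))).toSphere with hσdef
  set Sg : ℝ := (σ univ).toReal with hSg
  have hSg0 : 0 ≤ Sg := ENNReal.toReal_nonneg
  have hσ : σ univ = ENNReal.ofReal Sg := (ENNReal.ofReal_toReal (measure_lt_top σ univ).ne).symm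
  have hlev := fun j : ℕ => set_major (hfD (2 ^ j * F) (by positivity))
  choose P hPm hP hPint using hlev
  set Cs : ℝ := 2 ^ (m + 1) * (D:ℝ) ^ m * c0 m with hCs
  have hCs0 : 0 ≤ Cs := by have := c0_pos m; positivity
  set X : sphere (0 : EuclideanSpace ℝ (Fin (m + 1))) 1 → ℝ≥0∞ := fun e =>
    ((J + 1 : ℕ):ℝ≥0∞) ^ m * (ENNReal.ofReal (F * (1 + 2 / c)) ^ (m + 1) +
      ∑ j ∈ Finset.range J, ENNReal.ofReal ((2 ^ j * F) ^ (m + 1)) * P j e) with hX
  have hpt : ∀ e : sphere (0 : EuclideanSpace ℝ (Fin (m + 1))) 1,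
      kakeyaMax δ f (e : EuclideanSpace ℝ (Fin (m + 1))) ^ (m + 1) ≤ X e := by
    intro e
    have he : ‖(e : EuclideanSpace ℝ (Fin (m + 1)))‖ = 1 := by simp
    unfold kakeyaMax
    rw [ENNReal.iSup_pow]
    apply iSup_le
    intro a
    have h1 := pointwise hm hc hvol hδ hJ hf hF hW he a
    set y : ℕ → ℝ≥0∞ := fun i => match i with
      | 0 => ENNReal.ofReal (F * (1 + 2 / c))
      | i + 1 => ENNReal.ofReal (2 ^ i * F) *
        ((volume (tube δ (e : EuclideanSpace ℝ (Fin (m + 1))) a))⁻¹ *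
          volume (tube δ (e : EuclideanSpace ℝ (Fin (m + 1))) a ∩ {y | 2 ^ i * F < |f y|}))
      with hy
    have h2 : ENNReal.ofReal (F * (1 + 2 / c)) + ∑ j ∈ Finset.range J,
        ENNReal.ofReal (2 ^ j * F) *
        ((volume (tube δ (e : EuclideanSpace ℝ (Fin (m + 1))) a))⁻¹ *
          volume (tube δ (e : EuclideanSpace ℝ (Fin (m + 1))) a ∩ {y | 2 ^ j * F < |f y|})) =
        ∑ i ∈ Finset.range (J + 1), y i := by
      rw [Finset.sum_range_succ']
      rw [add_comm]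
    rw [h2] at h1
    refine ((pow_le_pow_left' h1 (m + 1)).trans (pow_sum_le (m := m) rfl _)).trans ?_
    simp only [hX]
    gcongr
    rw [Finset.sum_range_succ', add_comm]
    simp only [hy]
    refine add_le_add le_rfl (Finset.sum_le_sum fun j _ => ?_)
    rw [mul_pow, ENNReal.ofReal_pow (by positivity)]
    gcongr
    exact hP j e a δ hδ
  have hsum : ∑ j ∈ Finset.range J, ENNReal.ofReal ((2 ^ j * F) ^ (m + 1)) *
      volume {y | 2 ^ j * F < |f y|} ≤ 2 * ENNReal.ofReal (F ^ (m + 1)) := by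
    have h1 := sum_levels_le (volume : Measure (EuclideanSpace ℝ (Fin (m + 1))))
      (g := fun y => |f y|) hf.abs hF (p := m + 1) (by omega) J
    have h2 : ∫⁻ y, ENNReal.ofReal (|(|f y|)| ^ (m + 1)) = ∫⁻ y, ‖f y‖ₑ ^ (m + 1) := by
      congr 1
      ext y
      rw [abs_abs, ENNReal.ofReal_pow (abs_nonneg _), ← ofReal_norm, Real.norm_eq_abs]
    rw [h2] at h1
    exact h1.trans (by gcongr)
  have hXm : Measurable (fun e => ∑ j ∈ Finset.range J,
      ENNReal.ofReal ((2 ^ j * F) ^ (m + 1)) * P j e) :=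
    Finset.measurable_sum _ (fun j _ => (hPm j).const_mul _)
  calc ∫⁻ e : sphere (0 : EuclideanSpace ℝ (Fin (m + 1))) 1,
        kakeyaMax δ f (e : EuclideanSpace ℝ (Fin (m + 1))) ^ (m + 1) ∂σ
      ≤ ∫⁻ e, X e ∂σ := lintegral_mono hpt
    _ = ((J + 1 : ℕ):ℝ≥0∞) ^ m * (ENNReal.ofReal (F * (1 + 2 / c)) ^ (m + 1) * σ univ +
        ∑ j ∈ Finset.range J, ENNReal.ofReal ((2 ^ j * F) ^ (m + 1)) * ∫⁻ e, P j e ∂σ) := by
        simp only [hX]
        rw [lintegral_const_mul _ (hXm.const_add _), lintegral_add_left measurable_const,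
          lintegral_const, lintegral_finsetSum _ (fun j _ => (hPm j).const_mul _)]
        congr 2
        apply Finset.sum_congr rfl
        intro j _
        rw [lintegral_const_mul _ (hPm j)]
    _ ≤ ((J + 1 : ℕ):ℝ≥0∞) ^ m * (ENNReal.ofReal (F * (1 + 2 / c)) ^ (m + 1) * σ univ +
        ∑ j ∈ Finset.range J, ENNReal.ofReal ((2 ^ j * F) ^ (m + 1)) *
          (ENNReal.ofReal Cs * (ENNReal.ofReal M * volume {y | 2 ^ j * F < |f y|}))) := by
        gcongr with j hj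
        exact hPint j
    _ = ((J + 1 : ℕ):ℝ≥0∞) ^ m * (ENNReal.ofReal (F * (1 + 2 / c)) ^ (m + 1) * σ univ +
        ENNReal.ofReal Cs * ENNReal.ofReal M * ∑ j ∈ Finset.range J,
          ENNReal.ofReal ((2 ^ j * F) ^ (m + 1)) * volume {y | 2 ^ j * F < |f y|}) := by
        congr 2
        rw [Finset.mul_sum]
        apply Finset.sum_congr rfl
        intro j _
        ring
    _ ≤ ((J + 1 : ℕ):ℝ≥0∞) ^ m * (ENNReal.ofReal (F * (1 + 2 / c)) ^ (m + 1) * σ univ +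
        ENNReal.ofReal Cs * ENNReal.ofReal M * (2 * ENNReal.ofReal (F ^ (m + 1)))) := by gcongr
    _ = _ := by
        have h2 : 2 * ENNReal.ofReal (F ^ (m + 1)) = ENNReal.ofReal (2 * F ^ (m + 1)) := by
          rw [ENNReal.ofReal_mul (by norm_num)]; simp
        have h3 : ((J + 1 : ℕ):ℝ≥0∞) ^ m = ENNReal.ofReal (((J:ℝ) + 1) ^ m) := by
          rw [ENNReal.ofReal_pow (by positivity), ENNReal.ofReal_add (by positivity) (by norm_num),
            ENNReal.ofReal_natCast, ENNReal.ofReal_one]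
          push_cast
          rfl
        have hM0 : 0 ≤ M := by linarith
        rw [h2, h3, hσ, ← ENNReal.ofReal_pow (by positivity), ← ENNReal.ofReal_mul (by positivity),
          ← ENNReal.ofReal_mul (by positivity), ← ENNReal.ofReal_mul (by positivity),
          ← ENNReal.ofReal_add (by positivity) (by positivity),
          ← ENNReal.ofReal_mul (by positivity)]
        congr 1
        rw [mul_pow]
        ring

/-- **The estimate at the critical exponent.** -/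
theorem crit {m : ℕ} (hm : 1 ≤ m) : ∃ C : ℝ, 0 < C ∧ ∀ (D : ℕ) (M δ : ℝ)
    (f : EuclideanSpace ℝ (Fin (m + 1)) → ℝ), 1 ≤ D → 1 ≤ M → 0 < δ → δ < 1 →
      AEMeasurable f volume → Layered D M f →
      ∫⁻ e : sphere (0 : EuclideanSpace ℝ (Fin (m + 1))) 1,
        kakeyaMax δ f (e : EuclideanSpace ℝ (Fin (m + 1))) ^ (m + 1)
          ∂(volume : Measure (EuclideanSpace ℝ (Fin (m + 1)))).toSphere ≤
        ENNReal.ofReal (C * (D:ℝ) ^ m * M * (1 + Real.log (1 / δ)) ^ m) *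
          ∫⁻ y, ‖f y‖ₑ ^ (m + 1) := by
  obtain ⟨c, hc, hvol⟩ : ∃ c : ℝ, 0 < c ∧ ∀ (δ : ℝ) (e a : EuclideanSpace ℝ (Fin (m + 1))), 0 < δ →
      ‖e‖ = 1 → ENNReal.ofReal (c * δ ^ m) ≤ volume (tube δ e a) :=
    Pool.Agent.H742R2.Kk.volume_tube m
  have hcst := c0_pos m
  set Sg : ℝ := ((volume : Measure (EuclideanSpace ℝ (Fin (m + 1)))).toSphere univ).toReal with hSg
  have hSg0 : 0 ≤ Sg := ENNReal.toReal_nonneg
  set C0 : ℝ := Sg * (1 + 2 / c) ^ (m + 1) + 2 * (2 ^ (m + 1) * c0 m) with hC0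
  have hC0p : 0 < C0 := by positivity
  refine ⟨C0 * 3 ^ m, by positivity, ?_⟩
  intro D M δ f hD hM hδ hδ1 hf hfD
  have hlog : 0 < Real.log (1 / δ) := Real.log_pos (by rw [lt_div_iff₀ hδ]; linarith)
  have hD1 : (1:ℝ) ≤ D := by exact_mod_cast hD
  have hM0 : 0 < M := by linarith
  set W := ∫⁻ y, ‖f y‖ₑ ^ (m + 1) with hWdef
  set R : ℝ := C0 * 3 ^ m * (D:ℝ) ^ m * M * (1 + Real.log (1 / δ)) ^ m with hR
  have hR0 : 0 < R := by positivity
  by_cases hWt : W = ∞
  · rw [hWt, ENNReal.mul_top (by rw [Ne, ENNReal.ofReal_eq_zero, not_le]; exact hR0)]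
    exact le_top
  -- choice of J
  obtain ⟨J, hJ1, hJ2⟩ : ∃ J : ℕ, (1/2:ℝ) ^ J ≤ δ ∧ (J:ℝ) + 1 ≤ 3 * (1 + Real.log (1 / δ)) := by
    refine ⟨⌈Real.logb 2 (1 / δ)⌉₊, ?_, ?_⟩
    · have h1 : Real.logb 2 (1 / δ) ≤ ⌈Real.logb 2 (1 / δ)⌉₊ := Nat.le_ceil _
      rw [Real.logb_le_iff_le_rpow (by norm_num) (by positivity), Real.rpow_natCast] at h1
      rw [div_le_iff₀ hδ] at h1
      set k := ⌈Real.logb 2 (1 / δ)⌉₊
      calc (1/2:ℝ) ^ k = (1/2:ℝ) ^ k * 1 := by ring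
        _ ≤ (1/2:ℝ) ^ k * (2 ^ k * δ) := by gcongr
        _ = ((1/2:ℝ) ^ k * 2 ^ k) * δ := by ring
        _ = δ := by rw [← mul_pow]; norm_num
    · have h0 : 0 ≤ Real.logb 2 (1 / δ) := Real.logb_nonneg (by norm_num) (by
        rw [le_div_iff₀ hδ]; linarith)
      have h1 := (Nat.ceil_lt_add_one h0).le
      have hlog2 : 2 / 3 < Real.log 2 := by
        have := Real.log_two_gt_d9
        linarith
      have h2 : Real.logb 2 (1 / δ) ≤ (3/2) * Real.log (1 / δ) := by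
        rw [Real.logb, div_le_iff₀ (by linarith)]
        nlinarith
      linarith
  have hmain : ∀ F : ℝ, 0 < F → W ≤ ENNReal.ofReal (F ^ (m + 1)) →
      ∫⁻ e : sphere (0 : EuclideanSpace ℝ (Fin (m + 1))) 1,
        kakeyaMax δ f (e : EuclideanSpace ℝ (Fin (m + 1))) ^ (m + 1)
          ∂(volume : Measure (EuclideanSpace ℝ (Fin (m + 1)))).toSphere ≤
        ENNReal.ofReal (R * F ^ (m + 1)) := by
    intro F hF hW
    refine (crit_aux hm hc hvol hM hδ hJ1 hf hfD hF hW).trans (ENNReal.ofReal_le_ofReal ?_)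
    rw [← hSg]
    gcongr
    rw [hR]
    have h1 : ((J:ℝ) + 1) ^ m ≤ 3 ^ m * (1 + Real.log (1 / δ)) ^ m := by
      rw [← mul_pow]
      exact pow_le_pow_left₀ (by positivity) hJ2 m
    have h2 : (1:ℝ) ≤ (D:ℝ) ^ m := one_le_pow₀ hD1
    have h3 : Sg * (1 + 2 / c) ^ (m + 1) + 2 * (2 ^ (m + 1) * (D:ℝ) ^ m * c0 m) * M ≤
        C0 * ((D:ℝ) ^ m * M) := by
      rw [hC0]
      have h4 : 0 ≤ Sg * (1 + 2 / c) ^ (m + 1) := by positivity
      have h5 : 1 ≤ (D:ℝ) ^ m * M := one_le_mul_of_one_le_of_one_le h2 hM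
      nlinarith
    calc ((J:ℝ) + 1) ^ m * (Sg * (1 + 2 / c) ^ (m + 1) +
          2 * (2 ^ (m + 1) * (D:ℝ) ^ m * c0 m) * M)
        ≤ (3 ^ m * (1 + Real.log (1 / δ)) ^ m) * (C0 * ((D:ℝ) ^ m * M)) := by
          gcongr
      _ = _ := by ring
  apply ENNReal.le_of_forall_pos_le_add
  intro ε hε _
  have hε' : (0:ℝ) < ε := by exact_mod_cast hε
  set x : ℝ := W.toReal + ε / R with hx
  have hx0 : 0 < x := by
    have : 0 ≤ W.toReal := ENNReal.toReal_nonneg
    positivity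
  have hFx : (x ^ ((1:ℝ) / (m + 1 : ℕ))) ^ (m + 1) = x := by
    rw [← Real.rpow_natCast, ← Real.rpow_mul hx0.le]
    have : (1:ℝ) / (m + 1 : ℕ) * ((m + 1 : ℕ):ℝ) = 1 := by
      have : ((m + 1 : ℕ):ℝ) ≠ 0 := by positivity
      field_simp
    rw [this, Real.rpow_one]
  have h1 := hmain (x ^ ((1:ℝ) / (m + 1 : ℕ))) (by positivity) (by
    rw [hFx]
    calc W = ENNReal.ofReal W.toReal := (ENNReal.ofReal_toReal hWt).symm
      _ ≤ ENNReal.ofReal x := ENNReal.ofReal_le_ofReal (by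
        rw [hx]; have : 0 ≤ ε / R := by positivity
        linarith))
  rw [hFx] at h1
  refine h1.trans (le_of_eq ?_)
  have h2 : R * x = R * W.toReal + ε := by
    rw [hx]; field_simp
  rw [h2, ENNReal.ofReal_add (by positivity) hε'.le, ENNReal.ofReal_mul hR0.le,
    ENNReal.ofReal_toReal hWt]
  simp

end Pool.Agent.R462.KC
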