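import Pool.Agent.R462.KC.Chord

set_option autoImplicit false

/-!
# Segments in the layer between two convex sets, all directions together
-/

open MeasureTheory Set Filter Topology ENNReal NNReal Metric Module
open scoped Pointwise

set_option linter.unusedSectionVars false
set_option linter.deprecated false

namespace Pool.Agent.R462.KC

/-- Polar coordinates for the lower Lebesgue integral (after `Pool.Agent.TH225.CK`). -/
theorem lintegral_polar {V : Type*} [NormedAddCommGroup V] [NormedSpace ℝ V]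
    [FiniteDimensional ℝ V] [MeasurableSpace V] [BorelSpace V] [Nontrivial V] (μ : Measure V)
    [μ.IsAddHaarMeasure] {f : V → ℝ≥0∞} (hf : Measurable f) :
    ∫⁻ x, f x ∂μ = ∫⁻ u : sphere (0 : V) 1, (∫⁻ τ in Ioi (0:ℝ),
      ENNReal.ofReal (τ ^ (Module.finrank ℝ V - 1)) * f (τ • (u : V))) ∂μ.toSphere := by
  have h1 : ∫⁻ x, f x ∂μ = ∫⁻ x : (({0}ᶜ : Set V)), f x ∂(μ.comap (↑)) := by
    rw [lintegral_subtype_comap (measurableSet_singleton _).compl f, restrict_compl_singleton]
  have h2 : ∫⁻ x : (({0}ᶜ : Set V)), f x ∂(μ.comap (↑)) =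
      ∫⁻ p : sphere (0:V) 1 × Ioi (0:ℝ), f ((p.2 : ℝ) • (p.1 : V))
        ∂(μ.toSphere.prod (Measure.volumeIoiPow (Module.finrank ℝ V - 1))) := by
    rw [← μ.measurePreserving_homeomorphUnitSphereProd.lintegral_comp_emb
      (Homeomorph.measurableEmbedding _)]
    refine lintegral_congr (fun x => ?_)
    rw [← homeomorphUnitSphereProd_symm_apply_coe, Homeomorph.symm_apply_apply]
  have hmeas : Measurable (fun p : sphere (0:V) 1 × Ioi (0:ℝ) => f ((p.2 : ℝ) • (p.1 : V))) := by
    refine hf.comp ?_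
    exact (measurable_subtype_coe.comp measurable_snd).smul
      (measurable_subtype_coe.comp measurable_fst)
  rw [h1, h2, lintegral_prod _ hmeas.aemeasurable]
  refine lintegral_congr (fun u => ?_)
  have hmu : Measurable (fun τ : Ioi (0:ℝ) => f ((τ : ℝ) • (u : V))) :=
    hmeas.comp (measurable_const.prodMk measurable_id)
  rw [Measure.volumeIoiPow, lintegral_withDensity_eq_lintegral_mul _ (by fun_prop) hmu]
  exact lintegral_subtype_comap measurableSet_Ioi
    (fun τ : ℝ => ENNReal.ofReal (τ ^ (Module.finrank ℝ V - 1)) * f (τ • (u : V)))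

variable {E : Type*} [NormedAddCommGroup E] [NormedSpace ℝ E] [FiniteDimensional ℝ E]
  [MeasurableSpace E] [BorelSpace E]

/-- the greatest length in which a unit segment with direction `e` meets `A` -/
noncomputable def seg (A : Set E) (e : E) : ℝ≥0∞ :=
  ⨆ a : E, volume {t : ℝ | t ∈ Icc (0:ℝ) 1 ∧ a + t • e ∈ A}

lemma seg_le_one (A : Set E) (e : E) : seg A e ≤ 1 := by
  apply iSup_le
  intro a
  calc _ ≤ volume (Icc (0:ℝ) 1) := measure_mono (fun t ht => ht.1)
    _ = 1 := by simp

lemma seg_mono {A B : Set E} (h : A ⊆ B) (e : E) : seg A e ≤ seg B e := by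
  apply iSup_mono
  intro a
  exact measure_mono (fun t ht => ⟨ht.1, h ht.2⟩)

/-- A long intersection of a line with a layer gives a chord centred in the layer. -/
lemma chord_of_seg {U K : Set E} (hUc : Convex ℝ U) {a e : E} {r : ℝ} (hr : 0 ≤ r)
    (h : ENNReal.ofReal (2 * r) < volume {t : ℝ | t ∈ Icc (0:ℝ) 1 ∧ a + t • e ∈ U \ K}) :
    r • e ∈ Ch U K := by
  set S : Set ℝ := {t : ℝ | t ∈ Icc (0:ℝ) 1 ∧ a + t • e ∈ U \ K} with hS
  have hne : S.Nonempty := by
    rw [nonempty_iff_ne_empty]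
    intro h0
    rw [h0] at h
    simp at h
  have hbb : BddBelow S := ⟨0, fun t ht => ht.1.1⟩
  have hba : BddAbove S := ⟨1, fun t ht => ht.1.2⟩
  set a0 := sInf S with ha0
  set b0 := sSup S with hb0
  obtain ⟨t0, ht0, ht0'⟩ : ∃ t0 ∈ S, t0 ∉ Icc a0 (a0 + r) ∪ Icc (b0 - r) b0 := by
    by_contra hcon
    push Not at hcon
    have h1 : volume S ≤ ENNReal.ofReal (2 * r) := by
      calc volume S ≤ volume (Icc a0 (a0 + r) ∪ Icc (b0 - r) b0) := measure_mono hcon
        _ ≤ volume (Icc a0 (a0 + r)) + volume (Icc (b0 - r) b0) := measure_union_le _ _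
        _ = _ := by
            rw [Real.volume_Icc, Real.volume_Icc, ← ENNReal.ofReal_add (by linarith) (by linarith)]
            congr 1
            ring
    exact absurd h1 (not_le.2 h)
  have h1 : a0 ≤ t0 := csInf_le hbb ht0
  have h2 : t0 ≤ b0 := le_csSup hba ht0
  have h3 : a0 < t0 - r := by
    by_contra hc
    exact ht0' (Or.inl ⟨h1, by linarith⟩)
  have h4 : t0 + r < b0 := by
    by_contra hc
    exact ht0' (Or.inr ⟨by linarith, h2⟩)
  obtain ⟨t1, ht1, ht1'⟩ := exists_lt_of_csInf_lt hne h3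
  obtain ⟨t2, ht2, ht2'⟩ := exists_lt_of_lt_csSup hne h4
  have hc : Convex ℝ {t : ℝ | a + t • e ∈ U} := by
    intro x hx y hy p q hp hq hpq
    have := hUc hx hy hp hq hpq
    simp only [mem_setOf_eq, smul_eq_mul]
    convert this using 1
    have : a = p • a + q • a := by rw [← add_smul, hpq, one_smul]
    conv_lhs => rw [this]
    module
  have hoc := hc.ordConnected
  have h0U : t0 ∈ {t : ℝ | a + t • e ∈ U} := ht0.2.1
  refine ⟨a + t0 • e, ht0.2.2, ?_, ?_⟩
  · have h5 : t0 + r ∈ {t : ℝ | a + t • e ∈ U} := hoc.out h0U ht2.2.1 ⟨by linarith, by linarith⟩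
    have h6 : a + t0 • e + r • e = a + (t0 + r) • e := by module
    rw [h6]; exact h5
  · have h5 : t0 - r ∈ {t : ℝ | a + t • e ∈ U} := hoc.out ht1.2.1 h0U ⟨by linarith, by linarith⟩
    have h6 : a + t0 • e - r • e = a + (t0 - r) • e := by module
    rw [h6]; exact h5

/-- The pointwise bound by a measurable function with a small integral. -/
theorem seg_layer [Nontrivial E] (μ : Measure E) [μ.IsAddHaarMeasure] {U K : Set E}
    (hU : IsOpen U) (hUc : Convex ℝ U) (hK : IsClosed K) (hKc : Convex ℝ K) :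
    ∃ P : sphere (0 : E) 1 → ℝ≥0∞, Measurable P ∧
      (∀ e : sphere (0 : E) 1, seg (U \ K) (e : E) ^ finrank ℝ E ≤ P e) ∧
      ∫⁻ e, P e ∂μ.toSphere ≤
        ENNReal.ofReal (finrank ℝ E * 2 ^ finrank ℝ E * (2 * 6 ^ finrank ℝ E)) * μ (U \ K) := by
  obtain ⟨m, hm⟩ : ∃ m, finrank ℝ E = m + 1 := ⟨finrank ℝ E - 1, by
    have := finrank_pos (R := ℝ) (M := E)
    omega⟩
  set W : Set E := toMeasurable μ (Ch U K ∩ ball 0 1) with hW
  have hWm : MeasurableSet W := measurableSet_toMeasurable _ _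
  set g : E → ℝ≥0∞ := W.indicator 1 with hg
  have hgm : Measurable g := measurable_one.indicator hWm
  set P : sphere (0 : E) 1 → ℝ≥0∞ := fun e => ENNReal.ofReal ((m + 1) * 2 ^ (m + 1)) *
    ∫⁻ τ in Ioi (0:ℝ), ENNReal.ofReal (τ ^ m) * g (τ • (e : E)) with hP
  have hPm0 : Measurable (fun e : sphere (0 : E) 1 =>
      ∫⁻ τ in Ioi (0:ℝ), ENNReal.ofReal (τ ^ m) * g (τ • (e : E))) := by
    apply Measurable.lintegral_prod_right'
      (f := fun p : sphere (0 : E) 1 × ℝ => ENNReal.ofReal (p.2 ^ m) * g (p.2 • (p.1 : E)))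
    apply Measurable.mul (by fun_prop)
    apply hgm.comp
    exact measurable_snd.smul (measurable_subtype_coe.comp measurable_fst)
  refine ⟨P, hPm0.const_mul _, ?_, ?_⟩
  · intro e
    rw [hm]
    set s : ℝ := (seg (U \ K) (e : E)).toReal with hs
    have hs1 : seg (U \ K) (e : E) = ENNReal.ofReal s := by
      rw [hs, ENNReal.ofReal_toReal]
      exact ne_top_of_le_ne_top one_ne_top (seg_le_one _ _)
    have hs0 : 0 ≤ s := ENNReal.toReal_nonneg
    have hs2 : s ≤ 1 := by
      have := seg_le_one (U \ K) (e : E)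
      rw [hs1] at this
      rwa [ENNReal.ofReal_le_one] at this
    have he : ‖(e : E)‖ = 1 := by simpa using e.2
    have hmem : ∀ τ ∈ Ioo 0 (s / 2), τ • (e : E) ∈ W := by
      intro τ hτ
      apply subset_toMeasurable
      have h1 : ENNReal.ofReal (2 * τ) < seg (U \ K) (e : E) := by
        rw [hs1]
        apply (ENNReal.ofReal_lt_ofReal_iff (by linarith [hτ.1, hτ.2])).2
        linarith [hτ.2]
      obtain ⟨a, ha⟩ := lt_iSup_iff.1 h1
      refine ⟨chord_of_seg hUc hτ.1.le ha, ?_⟩
      rw [mem_ball_zero_iff, norm_smul, he, mul_one, Real.norm_eq_abs, abs_of_pos hτ.1]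
      linarith [hτ.2]
    have hint : ENNReal.ofReal ((s / 2) ^ (m + 1) / (m + 1)) ≤
        ∫⁻ τ in Ioi (0:ℝ), ENNReal.ofReal (τ ^ m) * g (τ • (e : E)) := by
      calc ENNReal.ofReal ((s / 2) ^ (m + 1) / (m + 1))
          = ENNReal.ofReal (∫ τ in Ioc 0 (s / 2), τ ^ m) := by
            rw [← intervalIntegral.integral_of_le (by positivity), integral_pow]
            simp
        _ = ∫⁻ τ in Ioc 0 (s / 2), ENNReal.ofReal (τ ^ m) := by
            rw [ofReal_integral_eq_lintegral_ofReal]
            · exact ((continuous_id.pow m).integrableOn_Icc.mono_set Ioc_subset_Icc_self)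
            · filter_upwards [ae_restrict_mem measurableSet_Ioc] with τ hτ
              exact pow_nonneg hτ.1.le _
        _ = ∫⁻ τ in Ioo 0 (s / 2), ENNReal.ofReal (τ ^ m) := by
            rw [restrict_Ioo_eq_restrict_Ioc]
        _ = ∫⁻ τ in Ioo 0 (s / 2), ENNReal.ofReal (τ ^ m) * g (τ • (e : E)) := by
            apply setLIntegral_congr_fun measurableSet_Ioo
            intro τ hτ
            simp only [hg]
            rw [indicator_of_mem (hmem τ hτ), Pi.one_apply, mul_one]
        _ ≤ _ := lintegral_mono_set (fun τ hτ => hτ.1)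
    calc seg (U \ K) (e : E) ^ (m + 1) = ENNReal.ofReal (s ^ (m + 1)) := by
          rw [hs1, ENNReal.ofReal_pow hs0]
      _ = ENNReal.ofReal ((m + 1) * 2 ^ (m + 1)) *
          ENNReal.ofReal ((s / 2) ^ (m + 1) / (m + 1)) := by
          rw [← ENNReal.ofReal_mul (by positivity)]
          congr 1
          rw [div_pow]
          field_simp
      _ ≤ _ := by
          simp only [hP]
          gcongr
  · have h1 : ∫⁻ e : sphere (0 : E) 1, (∫⁻ τ in Ioi (0:ℝ), ENNReal.ofReal (τ ^ m) *
        g (τ • (e : E))) ∂μ.toSphere = μ W := by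
      have := lintegral_polar μ hgm
      rw [hm] at this
      simp only [Nat.add_sub_cancel] at this
      rw [← this, hg]
      exact lintegral_indicator_one hWm
    simp only [hP]
    rw [lintegral_const_mul _ hPm0, h1, hW, measure_toMeasurable]
    have h2 := chord μ hU hUc hK hKc
    rw [hm] at h2 ⊢
    push_cast
    calc _ ≤ ENNReal.ofReal ((m + 1) * 2 ^ (m + 1)) *
          (ENNReal.ofReal (2 * 6 ^ (m + 1)) * μ (U \ K)) := by gcongr
      _ = _ := by
          rw [← mul_assoc, ← ENNReal.ofReal_mul (by positivity)]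

end Pool.Agent.R462.KC
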