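import Pool.Agent.R462.KC.Polar
import Pool.Agent.H742R2.Kk.Sphere

set_option autoImplicit false

/-!
Tools (after `Pool.Agent.W770.SA`): tubes, dyadic layers, power means.
-/

open MeasureTheory Set Filter Topology ENNReal NNReal Metric

namespace Pool.Agent.R462.KC

theorem sum_two_pow (t : ℝ) (N : ℕ) : t + ∑ j ∈ Finset.range N, 2 ^ j * t = 2 ^ N * t := by
  induction N with
  | zero => simp
  | succ N ih =>
    rw [Finset.sum_range_succ, ← add_assoc, ih]; ring

theorem layers {t x : ℝ} (ht : 0 < t) :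
    ENNReal.ofReal x ≤ ENNReal.ofReal t +
      ∑' j : ℕ, ENNReal.ofReal (2 ^ j * t) * (Ioi (2 ^ j * t)).indicator 1 x := by
  classical
  have hex : ∃ J : ℕ, x ≤ 2 ^ J * t := by
    obtain ⟨J, hJ⟩ := pow_unbounded_of_one_lt (x / t) (by norm_num : (1:ℝ) < 2)
    refine ⟨J, ?_⟩
    rw [div_lt_iff₀ ht] at hJ
    exact hJ.le
  set J := Nat.find hex with hJ
  have hJx : x ≤ 2 ^ J * t := Nat.find_spec hex
  have hlt : ∀ j < J, 2 ^ j * t < x := fun j hj => not_le.1 (Nat.find_min hex hj)
  calc ENNReal.ofReal x ≤ ENNReal.ofReal (2 ^ J * t) := ENNReal.ofReal_le_ofReal hJx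
    _ = ENNReal.ofReal t + ∑ j ∈ Finset.range J, ENNReal.ofReal (2 ^ j * t) := by
        rw [← sum_two_pow, ENNReal.ofReal_add ht.le (Finset.sum_nonneg fun j _ => by positivity),
          ENNReal.ofReal_sum_of_nonneg (fun j _ => by positivity)]
    _ = ENNReal.ofReal t + ∑ j ∈ Finset.range J,
          ENNReal.ofReal (2 ^ j * t) * (Ioi (2 ^ j * t)).indicator 1 x := by
        congr 1
        apply Finset.sum_congr rfl
        intro j hj
        rw [indicator_of_mem (show x ∈ Ioi (2 ^ j * t) from hlt j (Finset.mem_range.1 hj))]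
        simp
    _ ≤ _ := by
        gcongr
        exact ENNReal.sum_le_tsum _

theorem lintegral_layers {X : Type*} [MeasurableSpace X] (ν : Measure X) {g : X → ℝ}
    (hg : AEMeasurable g ν) {t : ℝ} (ht : 0 < t) :
    ∫⁻ x, ENNReal.ofReal (g x) ∂ν ≤ ENNReal.ofReal t * ν univ +
      ∑' j : ℕ, ENNReal.ofReal (2 ^ j * t) * ν {x | 2 ^ j * t < g x} := by
  have hind : ∀ c : ℝ, AEMeasurable (fun x => (Ioi c).indicator (1 : ℝ → ℝ≥0∞) (g x)) ν :=
    fun c => (measurable_one.indicator measurableSet_Ioi).comp_aemeasurable hg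
  calc ∫⁻ x, ENNReal.ofReal (g x) ∂ν
      ≤ ∫⁻ x, (ENNReal.ofReal t + ∑' j : ℕ, ENNReal.ofReal (2 ^ j * t) *
          (Ioi (2 ^ j * t)).indicator 1 (g x)) ∂ν := lintegral_mono fun x => layers ht
    _ = _ := by
        rw [lintegral_add_left measurable_const, lintegral_const, lintegral_tsum]
        · congr 2
          ext j
          rw [lintegral_const_mul'' _ (hind _)]
          congr 1
          have h1 : (fun x => (Ioi (2 ^ j * t)).indicator (1 : ℝ → ℝ≥0∞) (g x)) =
              {x | 2 ^ j * t < g x}.indicator 1 := by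
            ext x
            by_cases h : 2 ^ j * t < g x
            · rw [indicator_of_mem (show g x ∈ Ioi (2 ^ j * t) from h),
                indicator_of_mem (show x ∈ {x | 2 ^ j * t < g x} from h)]
              rfl
            · rw [indicator_of_notMem (show g x ∉ Ioi (2 ^ j * t) from h),
                indicator_of_notMem (show x ∉ {x | 2 ^ j * t < g x} from h)]
          rw [h1, lintegral_indicator_one₀ (nullMeasurableSet_lt aemeasurable_const hg)]
        · intro j
          exact (hind _).const_mul _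

/-- The layers are controlled by the integral. -/
theorem sum_layers_le {a x : ℝ} (ha : 0 < a) {p : ℕ} (hp : 1 ≤ p) (N : ℕ) :
    ∑ j ∈ Finset.range N, ENNReal.ofReal ((2 ^ j * a) ^ p) * (Ioi (2 ^ j * a)).indicator 1 x ≤
      2 * ENNReal.ofReal (|x| ^ p) := by
  have key : ∀ N : ℕ,
      (∑ j ∈ Finset.range N, ENNReal.ofReal ((2 ^ j * a) ^ p) * (Ioi (2 ^ j * a)).indicator 1 x ≤
        2 * ENNReal.ofReal (|x| ^ p)) ∧
      (∑ j ∈ Finset.range N, ENNReal.ofReal ((2 ^ j * a) ^ p) * (Ioi (2 ^ j * a)).indicator 1 x ≤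
        ENNReal.ofReal ((2 ^ N * a) ^ p)) := by
    intro N
    induction N with
    | zero => simp
    | succ N ih =>
      have hdouble : 2 * ENNReal.ofReal ((2 ^ N * a) ^ p) ≤ ENNReal.ofReal ((2 ^ (N + 1) * a) ^ p) := by
        have h2 : (2:ℝ≥0∞) = ENNReal.ofReal 2 := by simp
        rw [h2, ← ENNReal.ofReal_mul (by norm_num)]
        apply ENNReal.ofReal_le_ofReal
        have h3 : (2 ^ (N + 1) * a) ^ p = 2 ^ p * (2 ^ N * a) ^ p := by
          rw [pow_succ]; rw [← mul_pow]; ring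
        rw [h3]
        apply mul_le_mul_of_nonneg_right _ (by positivity)
        calc (2:ℝ) = 2 ^ 1 := by norm_num
          _ ≤ 2 ^ p := pow_le_pow_right₀ (by norm_num) hp
      rw [Finset.sum_range_succ]
      by_cases h : 2 ^ N * a < x
      · rw [indicator_of_mem (show x ∈ Ioi (2 ^ N * a) from h), Pi.one_apply, mul_one]
        have h4 : ENNReal.ofReal ((2 ^ N * a) ^ p) ≤ ENNReal.ofReal (|x| ^ p) := by
          apply ENNReal.ofReal_le_ofReal
          have : 2 ^ N * a ≤ |x| := h.le.trans (le_abs_self x)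
          gcongr
        have h5 : ∑ j ∈ Finset.range N, ENNReal.ofReal ((2 ^ j * a) ^ p) *
            (Ioi (2 ^ j * a)).indicator 1 x + ENNReal.ofReal ((2 ^ N * a) ^ p) ≤
            2 * ENNReal.ofReal ((2 ^ N * a) ^ p) := by
          rw [two_mul]; gcongr; exact ih.2
        exact ⟨h5.trans (by gcongr), h5.trans hdouble⟩
      · rw [indicator_of_notMem (show x ∉ Ioi (2 ^ N * a) from h), mul_zero, add_zero]
        refine ⟨ih.1, ih.2.trans (le_trans ?_ hdouble)⟩
        rw [two_mul]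
        exact le_self_add
  exact (key N).1

theorem sum_levels_le {X : Type*} [MeasurableSpace X] (ν : Measure X) {g : X → ℝ}
    (hg : AEMeasurable g ν) {a : ℝ} (ha : 0 < a) {p : ℕ} (hp : 1 ≤ p) (N : ℕ) :
    ∑ j ∈ Finset.range N, ENNReal.ofReal ((2 ^ j * a) ^ p) * ν {x | 2 ^ j * a < g x} ≤
      2 * ∫⁻ x, ENNReal.ofReal (|g x| ^ p) ∂ν := by
  have hind : ∀ c : ℝ, AEMeasurable (fun x => (Ioi c).indicator (1 : ℝ → ℝ≥0∞) (g x)) ν :=
    fun c => (measurable_one.indicator measurableSet_Ioi).comp_aemeasurable hg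
  calc ∑ j ∈ Finset.range N, ENNReal.ofReal ((2 ^ j * a) ^ p) * ν {x | 2 ^ j * a < g x}
      = ∫⁻ x, ∑ j ∈ Finset.range N, ENNReal.ofReal ((2 ^ j * a) ^ p) *
          (Ioi (2 ^ j * a)).indicator 1 (g x) ∂ν := by
        rw [lintegral_finsetSum' _ (fun j _ => (hind _).const_mul _)]
        apply Finset.sum_congr rfl
        intro j _
        rw [lintegral_const_mul'' _ (hind _)]
        congr 1
        have h1 : (fun x => (Ioi (2 ^ j * a)).indicator (1 : ℝ → ℝ≥0∞) (g x)) =
            {x | 2 ^ j * a < g x}.indicator 1 := by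
          ext x
          by_cases h : 2 ^ j * a < g x
          · rw [indicator_of_mem (show g x ∈ Ioi (2 ^ j * a) from h),
              indicator_of_mem (show x ∈ {x | 2 ^ j * a < g x} from h)]
            rfl
          · rw [indicator_of_notMem (show g x ∉ Ioi (2 ^ j * a) from h),
              indicator_of_notMem (show x ∉ {x | 2 ^ j * a < g x} from h)]
        rw [h1, lintegral_indicator_one₀ (nullMeasurableSet_lt aemeasurable_const hg)]
    _ ≤ ∫⁻ x, 2 * ENNReal.ofReal (|g x| ^ p) ∂ν := lintegral_mono fun x => sum_layers_le ha hp N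
    _ = _ := by
        rw [lintegral_const_mul'' _ (hg.abs.pow_const p).ennreal_ofReal]


variable {n : ℕ}

/-- The closed tube of length `1` and radius `δ` with centre `b` and axis direction `e`. -/
def tube (δ : ℝ) (e b : (EuclideanSpace ℝ (Fin n))) : Set (EuclideanSpace ℝ (Fin n)) :=
  {y | |inner ℝ (y - b) e| ≤ 1 / 2 ∧ ‖(y - b) - (inner ℝ (y - b) e : ℝ) • e‖ ≤ δ}

theorem isClosed_tube (δ : ℝ) (e b : (EuclideanSpace ℝ (Fin n))) : IsClosed (tube δ e b) := by
  have h1 : Continuous (fun y : (EuclideanSpace ℝ (Fin n)) => |inner ℝ (y - b) e|) := by fun_prop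
  have h2 : Continuous (fun y : (EuclideanSpace ℝ (Fin n)) => ‖(y - b) - (inner ℝ (y - b) e : ℝ) • e‖) := by fun_prop
  exact (isClosed_le h1 continuous_const).inter (isClosed_le h2 continuous_const)

theorem tube_shift {δ : ℝ} {e b : (EuclideanSpace ℝ (Fin n))} (he : ‖e‖ = 1) (y : (EuclideanSpace ℝ (Fin n))) (τ : ℝ) :
    (y + τ • e ∈ tube δ e b) ↔ |inner ℝ (y - b) e + τ| ≤ 1 / 2 ∧
      ‖(y - b) - (inner ℝ (y - b) e : ℝ) • e‖ ≤ δ := by
  have h1 : y + τ • e - b = (y - b) + τ • e := by abel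
  have h2 : inner ℝ (y + τ • e - b) e = inner ℝ (y - b) e + τ := by
    rw [h1, inner_add_left, inner_smul_left, real_inner_self_eq_norm_sq, he]
    simp
  have h3 : (y + τ • e - b) - (inner ℝ (y + τ • e - b) e : ℝ) • e =
      (y - b) - (inner ℝ (y - b) e : ℝ) • e := by
    rw [h2, h1, add_smul]; abel
  unfold tube
  rw [mem_ofPred_eq, h3, h2]

theorem tube_inter_le {δ : ℝ} {e b : (EuclideanSpace ℝ (Fin n))} (he : ‖e‖ = 1) {A : Set (EuclideanSpace ℝ (Fin n))} (hA : IsOpen A) :
    volume (tube δ e b ∩ A) ≤ 2 * volume (tube δ e b) * seg A e := by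
  classical
  set T := tube δ e b with hT
  have hTm : MeasurableSet T := (isClosed_tube δ e b).measurableSet
  set F : (EuclideanSpace ℝ (Fin n)) → ℝ → ℝ≥0∞ := fun y τ => (T ∩ A).indicator 1 (y + τ • e) with hF
  have hFm : Measurable (fun q : (EuclideanSpace ℝ (Fin n)) × ℝ => F q.1 q.2) :=
    (measurable_one.indicator (hTm.inter hA.measurableSet)).comp (by fun_prop)
  have h1 : volume (T ∩ A) = ∫⁻ τ in Icc (0:ℝ) 1, ∫⁻ y, F y τ := by
    have h2 : ∀ τ : ℝ, ∫⁻ y, F y τ = volume (T ∩ A) := by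
      intro τ
      have h3 := lintegral_add_right_eq_self (μ := (volume : Measure (EuclideanSpace ℝ (Fin n))))
        ((T ∩ A).indicator (1 : (EuclideanSpace ℝ (Fin n)) → ℝ≥0∞)) (τ • e)
      rw [lintegral_indicator_one (hTm.inter hA.measurableSet)] at h3
      exact h3
    simp only [h2]
    rw [setLIntegral_const, Real.volume_Icc]
    simp
  have hsw : ∫⁻ τ in Icc (0:ℝ) 1, ∫⁻ y, F y τ = ∫⁻ y, ∫⁻ τ in Icc (0:ℝ) 1, F y τ :=
    (lintegral_lintegral_swap hFm.aemeasurable).symm
  rw [h1, hsw]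
  have h4 : ∀ y, ∫⁻ τ in Icc (0:ℝ) 1, F y τ ≤
      (T.indicator 1 y + T.indicator 1 (y + e)) * seg A e := by
    intro y
    have hle : ∫⁻ τ in Icc (0:ℝ) 1, F y τ ≤ seg A e := by
      calc ∫⁻ τ in Icc (0:ℝ) 1, F y τ ≤ ∫⁻ τ in Icc (0:ℝ) 1,
            {τ : ℝ | y + τ • e ∈ A}.indicator 1 τ := by
            apply lintegral_mono
            intro τ
            simp only [hF]
            by_cases h : y + τ • e ∈ T ∩ A
            · rw [indicator_of_mem h, indicator_of_mem (show τ ∈ {τ : ℝ | y + τ • e ∈ A} from h.2)]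
              simp
            · rw [indicator_of_notMem h]; exact zero_le
        _ = volume ({τ : ℝ | y + τ • e ∈ A} ∩ Icc 0 1) := by
            have hm : MeasurableSet {τ : ℝ | y + τ • e ∈ A} :=
              (hA.preimage (by fun_prop : Continuous fun τ : ℝ => y + τ • e)).measurableSet
            rw [lintegral_indicator_one hm, Measure.restrict_apply hm]
        _ = volume {s : ℝ | s ∈ Icc 0 1 ∧ y + s • e ∈ A} := by
            congr 1; ext s; exact and_comm
        _ ≤ seg A e := le_iSup (fun z : (EuclideanSpace ℝ (Fin n)) => volume {s : ℝ | s ∈ Icc 0 1 ∧ z + s • e ∈ A}) y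
    by_cases hy : y ∈ T ∨ y + e ∈ T
    · refine hle.trans ?_
      have : (1:ℝ≥0∞) ≤ T.indicator 1 y + T.indicator 1 (y + e) := by
        rcases hy with hy | hy
        · rw [indicator_of_mem hy]; simp
        · rw [indicator_of_mem hy]; simp
      calc seg A e = 1 * seg A e := (one_mul _).symm
        _ ≤ _ := by gcongr
    · push Not at hy
      have h5 : ∀ τ ∈ Icc (0:ℝ) 1, F y τ = 0 := by
        intro τ hτ
        simp only [hF]
        apply indicator_of_notMem
        rintro ⟨h6, -⟩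
        rw [hT, tube_shift he] at h6
        obtain ⟨h7, h8⟩ := h6
        rw [abs_le] at h7
        by_cases h9 : -(1/2) ≤ inner ℝ (y - b) e
        · apply hy.1
          have : y + (0:ℝ) • e ∈ tube δ e b := by
            rw [tube_shift he]
            refine ⟨?_, h8⟩
            rw [abs_le]
            constructor <;> linarith [hτ.1, hτ.2]
          simpa using this
        · apply hy.2
          push Not at h9
          have : y + (1:ℝ) • e ∈ tube δ e b := by
            rw [tube_shift he]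
            refine ⟨?_, h8⟩
            rw [abs_le]
            constructor <;> linarith [hτ.1, hτ.2]
          simpa using this
      rw [setLIntegral_congr_fun measurableSet_Icc h5]
      simp
  have h10 : ∫⁻ y, T.indicator (1 : (EuclideanSpace ℝ (Fin n)) → ℝ≥0∞) (y + e) = volume T := by
    have := lintegral_add_right_eq_self (μ := (volume : Measure (EuclideanSpace ℝ (Fin n))))
        (T.indicator (1 : (EuclideanSpace ℝ (Fin n)) → ℝ≥0∞)) e
    rw [lintegral_indicator_one hTm] at this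
    exact this
  have hTi : Measurable (T.indicator (1 : (EuclideanSpace ℝ (Fin n)) → ℝ≥0∞)) := measurable_one.indicator hTm
  calc ∫⁻ y, ∫⁻ τ in Icc (0:ℝ) 1, F y τ
      ≤ ∫⁻ y, (T.indicator 1 y + T.indicator 1 (y + e)) * seg A e := lintegral_mono h4
    _ = (∫⁻ y, (T.indicator 1 y + T.indicator 1 (y + e))) * seg A e := by
        rw [lintegral_mul_const]
        exact hTi.add (hTi.comp (measurable_add_const e))
    _ = 2 * volume T * seg A e := by
        rw [lintegral_add_left hTi, lintegral_indicator_one hTm, h10, two_mul]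

theorem markov {f : (EuclideanSpace ℝ (Fin n)) → ℝ} (hf : AEMeasurable f volume) {W : ℝ≥0∞}
    (hW : ∫⁻ y, ‖f y‖ₑ ^ n ≤ W) {s : ℝ} (hs : 0 < s) :
    ENNReal.ofReal (s ^ n) * volume {y | s < |f y|} ≤ W := by
  have h1 : ENNReal.ofReal (s ^ n) * volume {y | ENNReal.ofReal (s ^ n) ≤ ‖f y‖ₑ ^ n} ≤
      ∫⁻ y, ‖f y‖ₑ ^ n := mul_meas_ge_le_lintegral₀ (hf.enorm.pow_const n) _
  refine le_trans (le_trans ?_ h1) hW
  gcongr ENNReal.ofReal (s ^ n) * ?_
  apply measure_mono
  intro y hy
  show ENNReal.ofReal (s ^ n) ≤ ‖f y‖ₑ ^ n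
  rw [ENNReal.ofReal_pow hs.le, ← ofReal_norm, Real.norm_eq_abs]
  gcongr
  exact le_of_lt hy

theorem pow_sum_le {N n m : ℕ} (hnm : n = m + 1) (y : ℕ → ℝ≥0∞) :
    (∑ i ∈ Finset.range N, y i) ^ n ≤ (N:ℝ≥0∞) ^ m * ∑ i ∈ Finset.range N, y i ^ n := by
  subst hnm
  have h := ENNReal.rpow_sum_le_const_mul_sum_rpow (s := Finset.range N) (f := y)
    (p := ((m + 1 : ℕ) : ℝ)) (by push_cast; linarith [(Nat.cast_nonneg m : (0:ℝ) ≤ m)])
  have h1 : (((m + 1 : ℕ) : ℝ) - 1) = ((m:ℕ):ℝ) := by push_cast; ring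
  rw [h1, Finset.card_range] at h
  simp only [ENNReal.rpow_natCast] at h
  exact h


theorem volume_tube_lt_top {δ : ℝ} {e a : (EuclideanSpace ℝ (Fin n))} (he : ‖e‖ = 1) : volume (tube δ e a) < ∞ := by
  have : tube δ e a ⊆ closedBall a (1 / 2 + δ) := by
    rintro y ⟨h1, h2⟩
    rw [mem_closedBall, dist_eq_norm]
    calc ‖y - a‖ = ‖(inner ℝ (y - a) e : ℝ) • e + ((y - a) - (inner ℝ (y - a) e : ℝ) • e)‖ := by
          congr 1; abel
      _ ≤ ‖(inner ℝ (y - a) e : ℝ) • e‖ + ‖(y - a) - (inner ℝ (y - a) e : ℝ) • e‖ :=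
          norm_add_le _ _
      _ ≤ 1 / 2 + δ := by
          rw [norm_smul, he, mul_one, Real.norm_eq_abs]
          linarith
  exact (measure_mono this).trans_lt measure_closedBall_lt_top

/-- The Kakeya maximal function. -/
noncomputable def kakeyaMax (δ : ℝ) (f : (EuclideanSpace ℝ (Fin n)) → ℝ) (e : (EuclideanSpace ℝ (Fin n))) : ℝ≥0∞ :=
  ⨆ a : (EuclideanSpace ℝ (Fin n)), (volume (tube δ e a))⁻¹ * ∫⁻ y in tube δ e a, ‖f y‖ₑ

end Pool.Agent.R462.KC
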